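import Pool.Agent.W2helper40.BH.Stm

set_option autoImplicit false

/-!
# Project BH, piece REP
-/

namespace Pool.Agent.W2helper92.BH

open Pool.Agent.W2helper40.BH Finset

/-- the vector of the multiplicities -/
def cv (s : Multiset ℕ) : ℕ → ℚ := fun x => (s.count x : ℚ)

/-- the union of the supports -/
def sup (F : Finset (Multiset ℕ)) : Finset ℕ := F.biUnion fun s => s.toFinset

theorem mem_sup {F : Finset (Multiset ℕ)} {x : ℕ} : x ∈ sup F ↔ ∃ s ∈ F, x ∈ s := by
  unfold sup
  simp

theorem card_sup_le {F : Finset (Multiset ℕ)} {k : ℕ} (h : ∀ s ∈ F, Multiset.card s = k) :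
    (sup F).card ≤ F.card * k := by
  refine card_biUnion_le.trans ?_
  have := sum_le_card_nsmul F (fun s : Multiset ℕ => s.toFinset.card) k
    (fun s hs => (Multiset.toFinset_card_le s).trans (h s hs).le)
  simpa using this

theorem sum_cv {s : Multiset ℕ} {X : Finset ℕ} (h : s.toFinset ⊆ X) :
    ∑ x ∈ X, cv s x = (Multiset.card s : ℚ) := by
  unfold cv
  have := Multiset.sum_count_eq_card (s := X) (m := s)
    (fun a ha => h (Multiset.mem_toFinset.2 ha))
  exact_mod_cast this

theorem sum_cv_mul {s : Multiset ℕ} {X : Finset ℕ} (h : s.toFinset ⊆ X) :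
    ∑ x ∈ X, cv s x * (x : ℚ) = (s.sum : ℚ) := by
  unfold cv
  have := Finset.sum_multiset_count_of_subset s X h
  rw [this]
  push_cast
  exact sum_congr rfl fun x _ => by simp

theorem cv_ne {s : Multiset ℕ} {x : ℕ} : cv s x ≠ 0 ↔ x ∈ s := by
  unfold cv
  rw [Nat.cast_ne_zero, Multiset.count_ne_zero]

theorem cv_inj {s t : Multiset ℕ} (h : cv s = cv t) : s = t := by
  ext x
  have := congrFun h x
  unfold cv at this
  exact_mod_cast this

theorem cv_nonneg (s : Multiset ℕ) (x : ℕ) : 0 ≤ cv s x := by
  unfold cv
  positivity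

theorem clean_bound {h : ℕ} {A : Set ℕ} (hcl : Clean h A) {k n : ℕ} (hkh : k ≤ h)
    {F : Finset (Multiset ℕ)} (hF : ∀ s ∈ F, s ∈ Reps A k n)
    (hind : LinearIndepOn ℚ cv (F : Set (Multiset ℕ))) {X : Finset ℕ} (hX : ∀ x ∈ X, x ∈ A)
    (hXV : X.card ≤ V h) (hFX : ∀ s ∈ F, s.toFinset ⊆ X) :
    (h + 1) * (F.card - 1) ≤ X.card := by
  classical
  rcases F.eq_empty_or_nonempty with rfl | ⟨s0, hs0⟩
  · simp
  have h1 : LinearIndependent ℚ (fun s : (F : Set (Multiset ℕ)) => cv s.1) := hind
  have h2 := (affineIndependent_iff_linearIndependent_vsub ℚ _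
    (⟨s0, hs0⟩ : (F : Set (Multiset ℕ)))).1 h1.affineIndependent
  have hcard : Fintype.card {x : (F : Set (Multiset ℕ)) // x ≠ ⟨s0, hs0⟩} = F.card - 1 := by
    rw [Fintype.card_subtype_compl, Fintype.card_subtype_eq]
    simp
  let e := (Fintype.equivFinOfCardEq hcard).symm
  refine hcl X hX hXV (F.card - 1) (fun i => cv (e i).1.1 - cv s0) ?_ (h2.comp e e.injective)
  intro i
  have hs : (e i).1.1 ∈ F := (e i).1.2
  have hr := hF _ hs
  have hr0 := hF _ hs0
  refine ⟨?_, ?_, ?_⟩
  · intro x
    refine ⟨((e i).1.1.count x : ℤ) - (s0.count x : ℤ), ?_, ?_⟩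
    · simp [cv]
    · have h3 : (e i).1.1.count x ≤ k := (Multiset.count_le_card _ _).trans hr.1.le
      have h4 : s0.count x ≤ k := (Multiset.count_le_card _ _).trans hr0.1.le
      rw [abs_le]
      constructor <;> omega
  · intro x hx
    have h3 : (e i).1.1.count x = 0 :=
      Multiset.count_eq_zero.2 fun h' => hx (hFX _ hs (Multiset.mem_toFinset.2 h'))
    have h4 : s0.count x = 0 :=
      Multiset.count_eq_zero.2 fun h' => hx (hFX _ hs0 (Multiset.mem_toFinset.2 h'))
    simp [cv, h3, h4]
  · have h3 := sum_cv_mul (hFX _ hs)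
    have h4 := sum_cv_mul (hFX _ hs0)
    simp only [Pi.sub_apply, sub_mul, sum_sub_distrib]
    rw [h3, h4, hr.2.2, hr0.2.2, sub_self]

/-- the multiplicity vectors of few representations are independent -/
theorem indep {h : ℕ} {A : Set ℕ} (hcl : Clean h A) {k n : ℕ} (hk1 : 1 ≤ k)
    (hkh : k ≤ h) (F : Finset (Multiset ℕ)) :
    (∀ s ∈ F, s ∈ Reps A k n) → F.card ≤ h + 2 →
      LinearIndepOn ℚ cv (F : Set (Multiset ℕ)) := by
  classical
  induction F using Finset.induction_on with
  | empty =>
    intro _ _
    simp
  | insert t F ht ih =>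
    intro hF hcard
    have hF' : ∀ s ∈ F, s ∈ Reps A k n := fun s hs => hF s (mem_insert_of_mem hs)
    rw [card_insert_of_notMem ht] at hcard
    have hind := ih hF' (by omega)
    rw [coe_insert, linearIndepOn_insert (by simpa using ht)]
    refine ⟨hind, ?_⟩
    intro hspan
    rw [Submodule.mem_span_image_finset_iff_exists_fun] at hspan
    obtain ⟨l, hl⟩ := hspan
    -- the members which occur
    let g : Multiset ℕ → ℚ := fun s => if hs : s ∈ F then l ⟨s, hs⟩ else 0
    have hg : ∀ x, ∑ s ∈ F, g s * cv s x = cv t x := by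
      intro x
      have h1 := congrFun hl x
      rw [← h1, Finset.sum_apply, ← sum_coe_sort F]
      refine sum_congr rfl fun s _ => ?_
      simp [g]
    obtain ⟨S, hS⟩ : ∃ S, S = F.filter fun s => g s ≠ 0 := ⟨_, rfl⟩
    have hSF : S ⊆ F := by rw [hS]; exact filter_subset _ _
    have hgS : ∀ s ∈ S, g s ≠ 0 := fun s hs => by rw [hS] at hs; exact (mem_filter.1 hs).2
    have hg' : ∀ x, ∑ s ∈ S, g s * cv s x = cv t x := by
      intro x
      rw [← hg x]
      refine sum_subset hSF ?_
      intro s hs hs'
      have : g s = 0 := by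
        by_contra hn
        exact hs' (by rw [hS]; exact mem_filter.2 ⟨hs, hn⟩)
      rw [this, zero_mul]
    have htS : t ∉ S := fun h => ht (hSF h)
    have hSind : LinearIndepOn ℚ cv (S : Set (Multiset ℕ)) := hind.mono (by exact_mod_cast hSF)
    have hSR : ∀ s ∈ S, s ∈ Reps A k n := fun s hs => hF' s (hSF hs)
    have htR := hF t (mem_insert_self t F)
    have hGR : ∀ s ∈ insert t S, s ∈ Reps A k n := by
      intro s hs
      rcases mem_insert.1 hs with rfl | hs
      · exact htR
      · exact hSR s hs
    obtain ⟨X, hXd⟩ : ∃ X, X = sup (insert t S) := ⟨_, rfl⟩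
    have hXs : ∀ s ∈ insert t S, s.toFinset ⊆ X := by
      intro s hs x hx
      rw [hXd, mem_sup]
      exact ⟨s, hs, Multiset.mem_toFinset.1 hx⟩
    have hXA : ∀ x ∈ X, x ∈ A := by
      intro x hx
      rw [hXd, mem_sup] at hx
      obtain ⟨s, hs, hxs⟩ := hx
      exact (hGR s hs).2.1 x hxs
    have hGc : (insert t S).card = S.card + 1 := card_insert_of_notMem htS
    have hSc : S.card ≤ F.card := card_le_card hSF
    have hXc : X.card ≤ (S.card + 1) * k := by
      rw [hXd, ← hGc]
      exact card_sup_le fun s hs => (hGR s hs).1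
    have hXV : X.card ≤ V h := by
      refine hXc.trans ?_
      unfold V
      calc (S.card + 1) * k ≤ (h + 2) * (h + 2) := Nat.mul_le_mul (by omega) (by omega)
        _ ≤ 2 * (h + 2) ^ 3 := by nlinarith [sq_nonneg ((h : ℤ) + 2), Nat.zero_le h]
    have hcb := clean_bound hcl hkh hSR hSind hXA hXV (fun s hs => hXs s (mem_insert_of_mem hs))
    -- the sum of the coefficients
    have hk0 : (k : ℚ) ≠ 0 := by
      have : k ≠ 0 := by omega
      exact_mod_cast this
    have hsum1 : ∑ s ∈ S, g s = 1 := by
      have h1 : ∑ x ∈ X, ∑ s ∈ S, g s * cv s x = ∑ x ∈ X, cv t x :=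
        sum_congr rfl fun x _ => hg' x
      rw [sum_comm, sum_cv (hXs t (mem_insert_self t S)), htR.1] at h1
      have h2 : ∀ s ∈ S, ∑ x ∈ X, g s * cv s x = g s * k := by
        intro s hs
        rw [← mul_sum, sum_cv (hXs s (mem_insert_of_mem hs)), (hSR s hs).1]
      rw [sum_congr rfl h2, ← sum_mul] at h1
      exact mul_right_cancel₀ hk0 (by rw [h1, one_mul])
    -- a member whose support is everything
    have hbig : ∀ w ∈ insert t S, X ⊆ w.toFinset → X.card ≤ k := by
      intro w hw hXw
      exact (card_le_card hXw).trans ((Multiset.toFinset_card_le w).trans (hGR w hw).1.le)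
    -- every element is in two members
    have htwo : ∀ x ∈ X, 2 ≤ ((insert t S).filter fun s => x ∈ s).card := by
      intro x hx
      rw [hXd, mem_sup] at hx
      obtain ⟨s, hs, hxs⟩ := hx
      by_cases hxt : x ∈ t
      · have h1 : ∑ s ∈ S, g s * cv s x ≠ 0 := by
          rw [hg' x]
          exact cv_ne.2 hxt
        obtain ⟨u, hu, hu2⟩ := exists_ne_zero_of_sum_ne_zero h1
        have hxu : x ∈ u := cv_ne.1 (right_ne_zero_of_mul hu2)
        have hut : u ≠ t := fun h => htS (h ▸ hu)
        exact one_lt_card.2 ⟨u, mem_filter.2 ⟨mem_insert_of_mem hu, hxu⟩, t,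
          mem_filter.2 ⟨mem_insert_self t S, hxt⟩, hut⟩
      · have hsS : s ∈ S := by
          rcases mem_insert.1 hs with rfl | hs
          · exact absurd hxs hxt
          · exact hs
        have h1 : ∑ s ∈ S, g s * cv s x = 0 := by
          rw [hg' x]
          by_contra hn
          exact hxt (cv_ne.1 hn)
        rw [← add_sum_erase S _ hsS] at h1
        have h2 : ∑ u ∈ S.erase s, g u * cv u x ≠ 0 := by
          intro h3
          rw [h3, add_zero] at h1
          exact mul_ne_zero (hgS s hsS) (cv_ne.2 hxs) h1
        obtain ⟨u, hu, hu2⟩ := exists_ne_zero_of_sum_ne_zero h2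
        have hxu : x ∈ u := cv_ne.1 (right_ne_zero_of_mul hu2)
        rw [mem_erase] at hu
        exact one_lt_card.2 ⟨u, mem_filter.2 ⟨mem_insert_of_mem hu.2, hxu⟩, s,
          mem_filter.2 ⟨mem_insert_of_mem hsS, hxs⟩, hu.1⟩
    have hdouble : 2 * X.card ≤ (S.card + 1) * k := by
      have h1 : ∑ x ∈ X, ((insert t S).filter fun s => x ∈ s).card =
          ∑ s ∈ insert t S, (X.filter fun x => x ∈ s).card := by
        simp only [card_filter]
        exact sum_comm
      have h2 : X.card * 2 ≤ ∑ x ∈ X, ((insert t S).filter fun s => x ∈ s).card := by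
        have := card_nsmul_le_sum X (fun x => ((insert t S).filter fun s => x ∈ s).card) 2 htwo
        simpa using this
      have h3 : ∑ s ∈ insert t S, (X.filter fun x => x ∈ s).card ≤ (insert t S).card * k := by
        have := sum_le_card_nsmul (insert t S) (fun s => (X.filter fun x => x ∈ s).card) k
          (fun s hs => by
            have h4 : (X.filter fun x => x ∈ s) ⊆ s.toFinset := by
              intro x hx
              exact Multiset.mem_toFinset.2 (mem_filter.1 hx).2
            exact (card_le_card h4).trans ((Multiset.toFinset_card_le s).trans (hGR s hs).1.le))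
        simpa using this
      rw [hGc] at h3
      omega
    -- the cases
    rcases Nat.lt_or_ge S.card 3 with hlt | hge
    · interval_cases hc : S.card
      · rw [card_eq_zero] at hc
        rw [hc, sum_empty] at hsum1
        exact zero_ne_one hsum1
      · obtain ⟨s, hs⟩ := card_eq_one.1 hc
        rw [hs, sum_singleton] at hsum1
        have h1 : cv s = cv t := by
          funext x
          have := hg' x
          rw [hs, sum_singleton, hsum1, one_mul] at this
          exact this
        apply htS
        rw [hs, ← cv_inj h1]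
        exact mem_singleton_self s
      · obtain ⟨s, u, hsu, hs⟩ := card_eq_two.1 hc
        rw [hs, sum_pair hsu] at hsum1
        have hrel : ∀ x, g s * cv s x + g u * cv u x = cv t x := by
          intro x
          have := hg' x
          rw [hs, sum_pair hsu] at this
          exact this
        have hsS : s ∈ S := by rw [hs]; exact mem_insert_self s _
        have huS : u ∈ S := by rw [hs]; exact mem_insert_of_mem (mem_singleton_self u)
        have hgs := hgS s hsS
        have hgu := hgS u huS
        have hmemX : ∀ x ∈ X, x ∈ t ∨ x ∈ s ∨ x ∈ u := by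
          intro x hx
          rw [hXd, mem_sup] at hx
          obtain ⟨w, hw, hxw⟩ := hx
          rw [hs] at hw
          simp only [mem_insert, mem_singleton] at hw
          rcases hw with rfl | rfl | rfl
          · exact Or.inl hxw
          · exact Or.inr (Or.inl hxw)
          · exact Or.inr (Or.inr hxw)
        have hpos : ∀ (w : Multiset ℕ) (x : ℕ), x ∈ w → 0 < cv w x := fun w x hx =>
          lt_of_le_of_ne (cv_nonneg w x) (cv_ne.2 hx).symm
        have hX : X.card ≤ k := by
          rcases lt_or_gt_of_ne hgs with hs' | hs'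
          · -- u is the large one
            have hu' : 0 < g u := by linarith
            refine hbig u (mem_insert_of_mem huS) fun x hx => Multiset.mem_toFinset.2 ?_
            rw [← cv_ne]
            intro h0
            have h1 := hrel x
            rw [h0, mul_zero, add_zero] at h1
            have h2 := cv_nonneg t x
            have h3 := cv_nonneg s x
            rcases hmemX x hx with h4 | h4 | h4
            · have := hpos t x h4
              nlinarith
            · have := hpos s x h4
              nlinarith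
            · exact (hpos u x h4).ne' h0
          · rcases lt_or_gt_of_ne hgu with hu' | hu'
            · refine hbig s (mem_insert_of_mem hsS) fun x hx => Multiset.mem_toFinset.2 ?_
              rw [← cv_ne]
              intro h0
              have h1 := hrel x
              rw [h0, mul_zero, zero_add] at h1
              have h2 := cv_nonneg t x
              have h3 := cv_nonneg u x
              rcases hmemX x hx with h4 | h4 | h4
              · have := hpos t x h4
                nlinarith
              · exact (hpos s x h4).ne' h0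
              · have := hpos u x h4
                nlinarith
            · refine hbig t (mem_insert_self t S) fun x hx => Multiset.mem_toFinset.2 ?_
              rw [← cv_ne]
              intro h0
              have h1 := hrel x
              rw [h0] at h1
              have h2 := cv_nonneg s x
              have h3 := cv_nonneg u x
              rcases hmemX x hx with h4 | h4 | h4
              · exact (hpos t x h4).ne' h0
              · have := hpos s x h4
                nlinarith [mul_pos hs' this, mul_nonneg hu'.le h3]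
              · have := hpos u x h4
                nlinarith [mul_pos hu' this, mul_nonneg hs'.le h2]
        omega
    · obtain ⟨m, hm⟩ : ∃ m, S.card = m + 3 := ⟨S.card - 3, by omega⟩
      rw [hm] at hcb hdouble
      have e1 : m + 3 - 1 = m + 2 := rfl
      rw [e1] at hcb
      have h1 : (m + 3 + 1) * k ≤ (m + 4) * h := Nat.mul_le_mul (by omega) hkh
      nlinarith

/-- PIECE REP -/
theorem p_rep : PropRep := by
  classical
  intro h A hh _ hcl k n hk1 hkh
  -- the bound for families with at most `h + 2` elements
  have key : ∀ F : Finset (Multiset ℕ), (∀ s ∈ F, s ∈ Reps A k n) → F.card ≤ h + 2 →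
      (h + 1) * (F.card - 1) ≤ (sup F).card ∧ (sup F).card ≤ F.card * k := by
    intro F hF hFc
    have h1 : (sup F).card ≤ F.card * k := card_sup_le fun s hs => (hF s hs).1
    refine ⟨clean_bound hcl hkh hF (indep hcl hk1 hkh F hF hFc) ?_ ?_ ?_, h1⟩
    · intro x hx
      rw [mem_sup] at hx
      obtain ⟨s, hs, hxs⟩ := hx
      exact (hF s hs).2.1 x hxs
    · refine h1.trans ?_
      unfold V
      calc F.card * k ≤ (h + 2) * (h + 2) := Nat.mul_le_mul (by omega) (by omega)
        _ ≤ 2 * (h + 2) ^ 3 := by nlinarith [Nat.zero_le h]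
    · intro s hs x hx
      rw [mem_sup]
      exact ⟨s, hs, Multiset.mem_toFinset.1 hx⟩
  obtain ⟨j, hj⟩ : ∃ j, h + 1 = k + 1 + j := ⟨h - k, by omega⟩
  have hj' : h + 1 - k = j + 1 := by omega
  have key2 : ∀ F : Finset (Multiset ℕ), (∀ s ∈ F, s ∈ Reps A k n) → F.card ≤ h + 2 →
      F.card * (j + 1) ≤ h + 1 := by
    intro F hF hFc
    obtain ⟨h1, h2⟩ := key F hF hFc
    rcases Nat.eq_zero_or_pos F.card with h0 | h0
    · rw [h0]
      omega
    · obtain ⟨c, hc⟩ : ∃ c, F.card = c + 1 := ⟨F.card - 1, by omega⟩
      rw [hc] at h1 h2 ⊢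
      have e1 : c + 1 - 1 = c := rfl
      rw [e1, hj] at h1
      rw [hj]
      nlinarith
  intro F hF
  have hFc : F.card ≤ h + 1 := by
    by_contra hn
    obtain ⟨F', hF', hc⟩ := exists_subset_card_eq (show h + 2 ≤ F.card by omega)
    have := key2 F' (fun s hs => hF s (hF' hs)) hc.le
    rw [hc] at this
    nlinarith
  rw [hj']
  refine ⟨key2 F hF (by omega), ?_⟩
  intro heq
  obtain ⟨h1, h2⟩ := key F hF (by omega)
  have hpos : 0 < F.card := by
    rcases Nat.eq_zero_or_pos F.card with h0 | h0
    · rw [h0] at heq
      omega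
    · exact h0
  have hXeq : (sup F).card = F.card * k := by
    refine le_antisymm h2 ?_
    obtain ⟨c, hc⟩ : ∃ c, F.card = c + 1 := ⟨F.card - 1, by omega⟩
    rw [hc] at h1 heq ⊢
    have e1 : c + 1 - 1 = c := rfl
    rw [e1, hj] at h1
    rw [hj] at heq
    nlinarith
  -- equality in the union bound
  have hsum : ∑ s ∈ F, s.toFinset.card ≤ (sup F).card := by
    rw [hXeq]
    have := sum_le_card_nsmul F (fun s : Multiset ℕ => s.toFinset.card) k
      (fun s hs => (Multiset.toFinset_card_le s).trans (hF s hs).1.le)
    simpa using this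
  have hcards : ∀ s ∈ F, s.toFinset.card = k := by
    by_contra hn
    push Not at hn
    obtain ⟨s, hs, hne⟩ := hn
    have hlt : ∑ s ∈ F, s.toFinset.card < ∑ _s ∈ F, k := by
      refine sum_lt_sum (fun s hs => (Multiset.toFinset_card_le s).trans (hF s hs).1.le) ⟨s, hs, ?_⟩
      exact lt_of_le_of_ne ((Multiset.toFinset_card_le s).trans (hF s hs).1.le) hne
    rw [sum_const, smul_eq_mul, ← hXeq] at hlt
    have h3 : (sup F).card ≤ ∑ s ∈ F, s.toFinset.card := card_biUnion_le
    omega
  have hdisj : ∀ s ∈ F, ∀ t ∈ F, s ≠ t → Disjoint s t := by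
    intro s hs t ht hst
    rw [Multiset.disjoint_left]
    intro x hxs hxt
    -- remove `x` from the support of `t`
    have h3 : sup F ⊆ sup (F.erase t) ∪ t.toFinset.erase x := by
      intro y hy
      rw [mem_sup] at hy
      obtain ⟨w, hw, hyw⟩ := hy
      rw [mem_union, mem_sup, mem_erase, Multiset.mem_toFinset]
      by_cases hwt : w = t
      · subst hwt
        by_cases hyx : y = x
        · subst hyx
          exact Or.inl ⟨s, mem_erase.2 ⟨hst, hs⟩, hxs⟩
        · exact Or.inr ⟨hyx, hyw⟩
      · exact Or.inl ⟨w, mem_erase.2 ⟨hwt, hw⟩, hyw⟩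
    have h4 := (card_le_card h3).trans (card_union_le _ _)
    have h5 : (sup (F.erase t)).card ≤ (F.erase t).card * k :=
      card_sup_le fun w hw => (hF w (mem_of_mem_erase hw)).1
    rw [card_erase_of_mem ht] at h5
    rw [card_erase_of_mem (Multiset.mem_toFinset.2 hxt), hcards t ht, hXeq] at h4
    obtain ⟨c, hc⟩ : ∃ c, F.card = c + 1 := ⟨F.card - 1, by omega⟩
    rw [hc] at h4 h5
    have e1 : c + 1 - 1 = c := rfl
    rw [e1] at h5
    have e2 : (c + 1) * k = c * k + k := by ring
    omega
  refine ⟨hk1, hkh, by rw [hj']; exact heq, ?_, hdisj⟩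
  intro s hs
  refine ⟨hF s hs, ?_⟩
  rw [← Multiset.dedup_eq_self]
  refine Multiset.eq_of_le_of_card_le (Multiset.dedup_le s) ?_
  rw [(hF s hs).1, ← hcards s hs]
  exact le_rfl

end Pool.Agent.W2helper92.BH
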